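import Mathlib
import Pool.Agent.H411Z.WX.Main

set_option autoImplicit false

universe u v

/-- Let `F` be a field with `2 ≠ 0` (for instance of characteristic `0`) and `σ` an infinite set of
variables (for instance `ℕ`). Every Lie algebra automorphism `ψ` of `Der F[x_i : i ∈ σ]` is the
conjugation `D ↦ φ ∘ D ∘ φ⁻¹` by an `F`-algebra automorphism `φ` of the polynomial algebra. -/
theorem Pool.Agent.Results.MP_c978f4_al.Conjugation.result
    (σ : Type u) [Infinite σ] (F : Type v) [Field F] (h2 : (2 : F) ≠ 0)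
    (ψ : Derivation F (MvPolynomial σ F) (MvPolynomial σ F) ≃ₗ⁅F⁆
      Derivation F (MvPolynomial σ F) (MvPolynomial σ F)) :
    ∃ φ : MvPolynomial σ F ≃ₐ[F] MvPolynomial σ F,
      ∀ (D : Derivation F (MvPolynomial σ F) (MvPolynomial σ F)) (g : MvPolynomial σ F),
        ψ D g = φ (D (φ.symm g)) :=
  Pool.Agent.H411Z.WX.main h2 ψ
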